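import Pool.Agent.W622.BK.Stm

/-! # Bloch-Kato Lie algebras: the double induction (part MAIN) -/

set_option autoImplicit false

namespace Pool.Agent.W408.BK

open Module Pool.Agent.W622.BK

universe u

theorem t_MAIN : Pool.Agent.W622.BK.S_MAIN.{u} := by
  intro hSURZ hSURO hSURS hEXS hEXB k _ E _ _ _ R hR hbase
  have key : ∀ p : ℕ, (∀ X : Submodule k (E →ₗ[k] k), Ex R X p) ∧
      (∀ (X : Submodule k (E →ₗ[k] k)) (u : E) (x : E →ₗ[k] k), x ∈ X → x u = 1 →
        Sur R X u p ∧ Sur R X u (p + 1) ∧ Sur R X u (p + 2)) := by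
    intro p
    induction p with
    | zero =>
      refine ⟨hbase, fun X u x hx hxu => ?_⟩
      have h0 : Sur R X u 0 := hSURZ k E R X u x hx hxu
      have h1 : Sur R X u (0 + 1) := hSURO k E R X u
      exact ⟨h0, h1, hSURS k E R X u x 0 hR hx hxu h0 h1 (hbase (Hh X u))⟩
    | succ p ih =>
      obtain ⟨hA, hB⟩ := ih
      have hA' : ∀ (n : ℕ) (X : Submodule k (E →ₗ[k] k)), finrank k X = n →
          Ex R X (p + 1) := by
        intro n
        induction n using Nat.strong_induction_on with
        | _ n ihn =>
          intro X hX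
          by_cases hbot : X = ⊥
          · rw [hbot]
            exact (hEXB k E R (p + 1) hR).2
          · obtain ⟨x, hxX, hx0⟩ := (Submodule.ne_bot_iff X).1 hbot
            obtain ⟨u, hu⟩ : ∃ u, x u ≠ 0 := by
              by_contra hcon
              push Not at hcon
              exact hx0 (LinearMap.ext hcon)
            have hxX' : ((x u)⁻¹ • x) ∈ X := X.smul_mem _ hxX
            have hxu' : ((x u)⁻¹ • x) u = 1 := by
              rw [LinearMap.smul_apply, smul_eq_mul, inv_mul_cancel₀ hu]
            obtain ⟨-, hs1, hs2⟩ := hB X u ((x u)⁻¹ • x) hxX' hxu'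
            have hlt : Hh X u < X := by
              refine lt_of_le_of_ne inf_le_left fun heq => ?_
              have hmem : x ∈ Hh X u := by rw [heq]; exact hxX
              have h0 : x u = 0 := hmem.2
              exact hu h0
            have hfin : finrank k (Hh X u) < finrank k X :=
              Submodule.finrank_lt_finrank_of_lt hlt
            have hEH : Ex R (Hh X u) (p + 1) :=
              ihn (finrank k (Hh X u)) (by omega) (Hh X u) rfl
            exact hEXS k E R X u p hR (hA (Nn R X u)) hs1 hs2 hEH
      refine ⟨fun X => hA' _ X rfl, fun X u x hx hxu => ?_⟩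
      obtain ⟨-, hs1, hs2⟩ := hB X u x hx hxu
      exact ⟨hs1, hs2, hSURS k E R X u x (p + 1) hR hx hxu hs1 hs2 (hA' _ (Hh X u) rfl)⟩
  exact ⟨fun X p => (key p).1 X, fun X u x hx hxu n => ((key n).2 X u x hx hxu).1⟩

end Pool.Agent.W408.BK
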